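import Pool.Agent.Q51.SZ.Stm
import Pool.Agent.Q38.SX.PRM
import Pool.Agent.Q150.SX.Plc

/-! Job SZ-EVQ of project SZ of helper51: valuations divisible by `q` at all primes of a number field from
all conjugates at one place (the case `q = 2` is `Pool/Agent/Q38/SX/EVN.lean`). -/

set_option autoImplicit false

open NumberField IsDedekindDomain

namespace Pool.Agent.Q285.SZ

open Pool.Agent.Q51.SZ Pool.Agent.Q51.EL Pool.Agent.Q38.SX

/-- **EVQ** -/
theorem evq : S_EVQ := by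
  intro A _ _ _ K _ q l hl V hlV u hu hpv w hw
  have : CharZero A := algebraRat.charZero A
  have : IsAlgClosed A := IsAlgClosure.isAlgClosed ℚ
  have : Algebra.IsAlgebraic ℚ A := IsAlgClosure.isAlgebraic
  have : Normal ℚ A := IsAlgClosure.normal ℚ A
  obtain ⟨j, hj⟩ := ((prm Pool.Agent.Q150.SX.cnj) A K l hl V hlV).2 w hw
  let τ : A ≃ₐ[ℚ] A := AlgEquiv.ofBijective (j.liftNormal A)
    (Algebra.IsAlgebraic.algHom_bijective _)
  have hτ : ∀ x : K, τ (x : A) = j x := fun x => j.liftNormal_commutes A x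
  obtain ⟨m, hm⟩ := hpv τ
  have hl0 : (l : K) ≠ 0 := by exact_mod_cast hl.ne_zero
  have hq : u / (l : K) ^ (0 + (q : ℤ) * m) ≠ 0 := div_ne_zero hu (zpow_ne_zero _ hl0)
  have h1 : (j : K →+* A) (u / (l : K) ^ (0 + (q : ℤ) * m)) = τ (u : A) / (l : A) ^ (0 + (q : ℤ) * m) := by
    rw [hτ, map_div₀, map_zpow₀, map_natCast]
    rfl
  have h2 := (isU_iff_val V (j : K →+* A) w (int_mem V _) hj _ hq).1 (h1 ▸ hm)
  have h3 : w.valuation K (l : K) ≠ 0 := (Valuation.ne_zero_iff _).mpr hl0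
  obtain ⟨n, hn⟩ : ∃ n : ℤ, w.valuation K (l : K) = WithZero.exp n :=
    ⟨WithZero.log (w.valuation K (l : K)), (WithZero.exp_log h3).symm⟩
  refine ⟨-(m * n), ?_⟩
  rw [map_div₀, map_zpow₀, div_eq_one_iff_eq (zpow_ne_zero _ h3), hn, ← WithZero.exp_zsmul] at h2
  rw [h2]
  congr 1
  simp only [smul_eq_mul]
  ring

end Pool.Agent.Q285.SZ
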